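import Pool.Agent.N734.QP.Deg

/-!
# Q1 for degeneracy loci in the varieties for which Q1 holds

The setting and the notions `Tilting`, `BaseField`, `IsConeOver`, `DimGE`, `DimLEOver`, `Approximable` are
those of `AllPerfectoidFields` (starting point): `K` is a perfectoid field of characteristic `0`,
`E = K♭` its tilt, `C` the completion of an algebraic closure of `K`, and `F = C♭`. Closed subsets of
projective space are given by their cones, and `Approximable T K E X d` is Q1 over `K` for a closed
subset `X` of dimension `d` defined over `K`: for all homogeneous polynomials `P_k` over `K` which vanish on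
`X` and all `ε > 0` there is a closed subset `Y` of dimension `d` defined over `E = K♭` with
`|P_k(y♯)| ≤ ε ‖y‖ ^ (deg P_k)` for all `k` and all points `y` of `Y`.

Let `V` be a closed subset of dimension `δ` of `ℙ^n` defined over `K` for which Q1 holds, or which is in
the following class, for which Q1 is known (`ToricSectionsAndStability`). `IsToricUnion K V δ`: `V` has
dimension at most `δ` and is the union of finitely many (at least one) `f_i(Z_i ∩ V(h_i))`, where `Z_i` is a
projective toric variety (not necessarily normal) of dimension at least `δ + c_i`, `h_i` consists of
`c_i` forms over `K`, and `f_i` is given by forms over `K` of the same positive degree without common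
zeros on `Z_i ∩ V(h_i)`.

Theorem. Let `M` be a matrix with `a` rows and `b + 1 ≤ a` columns, `b > 0`, of homogeneous polynomials over
`K` in `n + 1` variables, such that the degree of `M i j` is `α i - β j` if this is positive, and `M i j = 0`
if it is not positive. Suppose that `α i - β j` is positive on the diagonals `0 ≤ i - j ≤ a - (b + 1)`
(the diagonals which meet all columns). Let `X` be the set of the points of `V` where the columns of
`M` are linearly dependent (that is, where all maximal minors vanish), and suppose that the dimension
of `X` is at most `d`, where `d ≤ δ - (a - b)`, the expected dimension of `X`. Then `X` is closed, defined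
over `K`, of dimension `d`, and Q1 holds for `X`, and more generally for every closed subset of
dimension `d` of `ℙ^n` which contains `X`.

For `V = ℙ^n` this is `DeterminantalVarieties` (starting point). For `b = 0` (excluded here) the set `X`
would be a complete intersection in `V`, for which this is contained in
`ToricSectionsAndStability` (starting point). The rank condition concerns only the points of `V`: the
set of all points of `ℙ^n` where `M` degenerates may be of larger dimension than expected, and `X` is
then not a proper intersection.

Remarks (not part of the formal statement). So Q1 holds, over every perfectoid field `K`, for the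
degeneracy loci of the expected codimension `a - b` of the homomorphisms `⊕ O(-α_i) → ⊕ O(-β_j)` or
`⊕ O(β_j) → ⊕ O(α_i)` on all complete intersections, all toric varieties, all products of those, all
determinantal varieties, in all projective embeddings over `K`, and so on, for instance for the curves on
a complete intersection threefold, or on `ℙ^1 × ℙ^2`, where a `3 × 2` matrix of forms of the ambient
space has rank at most one, and for the divisors given by a determinant (`a = b + 1`) on any of these
varieties; the procedure can be iterated.

Proof. As in `DeterminantalVarieties` consider the variety `PD` of the matrices `(s_ij)` with `s_ij = 0`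
where `M i j = 0` and such that the matrix `(s_ij ^ (e_ij))` degenerates, where `e_ij = α_i - β_j`, for
which Q1 was proved there (`good_PD`). In the join of `PD` and `V` in complementary linear subspaces,
for which Q1 holds (`Good.join`), the equations `s_ij ^ (e_ij) = M_ij(z)` define a closed subset which is
mapped onto `X` by the projection to `ℙ^n`. This projection is defined everywhere on it, and the number
of the equations is the expected one.
-/

set_option autoImplicit false

namespace Pool.Agent.Results.MP_db3ab1_ag.DegeneracyLociInVarieties

open MvPolynomial Pool.Agent.Y129.TA Pool.Agent.N734.QP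
open Pool.Agent.Y129.TB (BaseField IsConeOver DimLEOver Approximable)
open Pool.Agent.R388.TP (IsToricUnion)
open Pool.Agent.X271.TR (Degen)

/-- Q1 holds for the degeneracy loci of expected dimension of the homogeneous matrices of forms on the
varieties for which Q1 holds. -/
theorem result {p : ℕ} [Fact p.Prime] {C F K E : Type} [Field C] [Field F] [CharP F p] [Field K]
    [Field E] [Algebra K C] [Algebra E F] [IsAlgClosed C] [IsAlgClosed F] (T : Tilting p C F)
    (B : BaseField T K E) {a b n δ d : ℕ} (V : Set (Fin (n + 1) → C))
    (hV : IsToricUnion K V δ ∨
      IsConeOver K V ∧ DimGE V δ ∧ DimLEOver K V δ ∧ Approximable T.toTiltPair K E V δ)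
    (hab : b + 1 ≤ a) (hb : 0 < b)
    (M : Fin a → Fin (b + 1) → MvPolynomial (Fin (n + 1)) K) (α : Fin a → ℕ)
    (β : Fin (b + 1) → ℕ) (hM : ∀ i j, β j < α i → (M i j).IsHomogeneous (α i - β j))
    (hM0 : ∀ i j, α i ≤ β j → M i j = 0)
    (hdiag : ∀ (i : Fin a) (j : Fin (b + 1)), (j : ℕ) ≤ (i : ℕ) →
      (i : ℕ) + (b + 1) ≤ (j : ℕ) + a → β j < α i)
    (hd : a + d ≤ δ + b) (hX : DimLEOver K (V ∩ Degen C M) d) :
    IsConeOver K (V ∩ Degen C M) ∧ DimGE (V ∩ Degen C M) d ∧
      ∀ X : Set (Fin (n + 1) → C), V ∩ Degen C M ⊆ X → Approximable T.toTiltPair K E X d :=
  let G := good_degen_in T B hab hb M hM hM0 hdiag (good_of T B hV) hd hX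
  ⟨G.cone, G.ge, fun _ hXX r P D hP hPX => G.app r P D hP fun k x hx => hPX k x (hXX hx)⟩

end Pool.Agent.Results.MP_db3ab1_ag.DegeneracyLociInVarieties
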