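import Pool.Agent.N150.JN.General

/-!
# Q1 for joins, cones and coverings

The setting and the notions `Tilting`, `BaseField`, `IsConeOver`, `DimGE`, `DimLEOver`, `Approximable`
are those of the starting files on this problem: `K` is a perfectoid field of characteristic `0` with
tilt `E = K♭`, `C` is the completion of an algebraic closure of `K` and `F = C♭`. Closed subsets of
projective spaces are given by their cones.

`Q1 T K E X d` (`Pool/Agent/N150/JN/Main.lean`): `X` is a closed subset of `ℙ^n` defined over `K`, of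
dimension `d` (any `d` forms have a common zero on it, and some `d + 1` forms over `K` have none), and
Q1 holds for it: for all homogeneous polynomials `P_k` over `K` which vanish on `X` and all `ε > 0` there
is a closed subset `Y` of dimension `d` of `ℙ^n`, defined over `E = K♭`, with
`|P_k (y♯)| ≤ ε ‖y‖ ^ (deg P_k)` for all `k` and all points `y` of `Y` over `F`. This was known for finite
unions of images of complete intersections in toric varieties (`known`, from the starting files).

Theorem (`result`). Suppose that Q1 holds for `X₁ ⊂ ℙ^n₁` and `X₂ ⊂ ℙ^n₂`, of dimensions `d₁` and `d₂`. Let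
`z_1, …, z_b`, `b ≥ 0`, be additional coordinates with weights `w_j > 0`; the coordinates `x` and `y` of
`X₁` and `X₂` have weight `1`. Let `Φ_1, …, Φ_c` be weighted homogeneous polynomials over `K` in `x, y, z`,
and `W` the set of the `(x, y, z)` with `x` in `X₁`, `y` in `X₂` (in the cones, `x = 0` or `y = 0` is
allowed) and `Φ_j (x, y, z) = 0`. Suppose that `W` has the expected dimension
`d = d₁ + d₂ + 1 + b - c`: some `d + 1` weighted homogeneous polynomials have no common zero on `W`
except `0`. Then Q1 holds for the image of `W` under any `f_0, …, f_N` which are weighted homogeneous of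
the same degree without common zeros on `W`, and this image has dimension `d`.

Special cases (theorems below, not part of `result`): Q1 for the join of `X₁` and `X₂` in
`ℙ^(n₁ + n₂ + 1)` (`join`), in particular for all cones over `X₁`; for the join of two disjoint closed
subsets of the same space (`disjoint_join`); for all coverings of `X` given by `b` weighted homogeneous
equations `Φ_j (x, z) = 0` in `b` additional coordinates, with `Φ (0, z) = 0` only for `z = 0`
(`covering`); for cyclic coverings `z ^ r = s(x)` (`cyclic`). So Q1 holds for towers of cyclic coverings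
of products, determinantal varieties and so on.

Proof. The product of the cones over approximations `Y₁` and `Y₂` is an approximation of the product of
the cones; its dimension is computed with algebraically independent elements of a prime quotient of the
tensor product of the coordinate rings. The general case is the image of a section of a cone over this
join, after the substitution `z_j = t_j ^ (w_j)`; forms over `K` which show that the dimension of the
image is not too large are constructed with chains of prime ideals (`dimLEOver_image`).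
-/

set_option autoImplicit false

namespace Pool.Agent.Results.MP_db3ab1_ag.JoinsAndCoverings

open MvPolynomial Pool.Agent.Y129.TA Pool.Agent.Y129.TB Pool.Agent.R388.TP Pool.Agent.N150.JN

/-- **Q1 for images of weighted complete intersections over joins.** -/
theorem result {p : ℕ} [Fact p.Prime] {C F K E : Type} [Field C] [Field F] [CharP F p] [Field K]
    [Field E] [Algebra K C] [Algebra E F] [IsAlgClosed C] [IsAlgClosed F] (T : Tilting p C F)
    (B : BaseField T K E) {n₁ n₂ d₁ d₂ : ℕ} {X₁ : Set (Fin (n₁ + 1) → C)}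
    {X₂ : Set (Fin (n₂ + 1) → C)} (hX₁ : Q1 T K E X₁ d₁) (hX₂ : Q1 T K E X₂ d₂)
    -- the additional coordinates and the equations
    {b c d : ℕ} (hdim : d + c = d₁ + d₂ + 1 + b) (w : Fin b → ℕ) (hw : ∀ j, 0 < w j)
    (Φ : Fin c → MvPolynomial (Fin (n₁ + 1) ⊕ Fin (n₂ + 1) ⊕ Fin b) K)
    (hΦ : ∀ j, ∃ D, 0 < D ∧ IsWeightedHomogeneous (weights n₁ n₂ w) (Φ j) D)
    -- the dimension of the set of the solutions is at most `d`
    (q : Fin (d + 1) → MvPolynomial (Fin (n₁ + 1) ⊕ Fin (n₂ + 1) ⊕ Fin b) K)
    (hq : ∀ j, ∃ D, 0 < D ∧ IsWeightedHomogeneous (weights n₁ n₂ w) (q j) D)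
    (hq0 : ∀ y ∈ solutions X₁ X₂ Φ, (∀ j, aeval y (q j) = 0) → y = 0)
    -- the map
    {N e : ℕ} (he : 0 < e)
    (f : Fin (N + 1) → MvPolynomial (Fin (n₁ + 1) ⊕ Fin (n₂ + 1) ⊕ Fin b) K)
    (hf : ∀ i, IsWeightedHomogeneous (weights n₁ n₂ w) (f i) e)
    (hf0 : ∀ y ∈ solutions X₁ X₂ Φ, (∀ i, aeval y (f i) = 0) → y = 0) :
    Q1 T K E {x | ∃ y ∈ solutions X₁ X₂ Φ, ∀ i, x i = aeval y (f i)} d :=
  q1_general T B hX₁ hX₂ hdim w hw Φ hΦ q hq hq0 he f hf hf0

section corollaries

variable {p : ℕ} [Fact p.Prime] {C F K E : Type} [Field C] [Field F] [CharP F p] [Field K]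
  [Field E] [Algebra K C] [Algebra E F] [IsAlgClosed C] [IsAlgClosed F]

/-- The known cases: finite unions of images of complete intersections in toric varieties. -/
theorem known (T : Tilting p C F) (B : BaseField T K E) {n d : ℕ} {X : Set (Fin (n + 1) → C)}
    (h : IsToricUnion K X d) : Q1 T K E X d := by
  have h1 := q1_of_toricUnion T B (K := K) (E := E) (Or.inl h)
  have h2 : Infinite C := IsAlgClosed.instInfinite
  obtain ⟨r, g, hg, hX⟩ := exists_gens h1.1 (nonempty_of_approximable T.toTiltPair h1.2)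
  obtain ⟨N, c, m, e, Z, h', f, hN, hZ, hh, he, hf, h0, hX', hle⟩ := h
  refine ⟨h1.1, ?_, hle, h1.2⟩
  have h3 := dimGE_of_small T (small_of_approximable T.toTiltPair g hg hX h1.2)
  rw [← hX] at h3
  exact h3

/-- The join in the projective space of dimension `n₁ + n₂ + 1`. -/
theorem join (T : Tilting p C F) {n₁ n₂ d₁ d₂ : ℕ} {X₁ : Set (Fin (n₁ + 1) → C)}
    {X₂ : Set (Fin (n₂ + 1) → C)} (h₁ : Q1 T K E X₁ d₁) (h₂ : Q1 T K E X₂ d₂) :
    Q1 T K E (joinIn X₁ X₂) (d₁ + d₂ + 1) :=
  q1_join T h₁ h₂

/-- The join of two disjoint closed subsets of the same projective space. -/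
theorem disjoint_join (T : Tilting p C F) (B : BaseField T K E) {n d₁ d₂ : ℕ}
    {X₁ X₂ : Set (Fin (n + 1) → C)} (h₁ : Q1 T K E X₁ d₁) (h₂ : Q1 T K E X₂ d₂)
    (h : ∀ x ∈ X₁, x ∈ X₂ → x = 0) :
    Q1 T K E {x | ∃ y ∈ X₁, ∃ z ∈ X₂, x = y + z} (d₁ + d₂ + 1) :=
  q1_sum T B h₁ h₂ h

/-- Coverings of `X` given by weighted homogeneous equations. -/
theorem covering (T : Tilting p C F) (B : BaseField T K E) {n d b N e : ℕ}
    {X : Set (Fin (n + 1) → C)} (hX : Q1 T K E X d) (w : Fin (b + 1) → ℕ) (hw : ∀ j, 0 < w j)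
    (Φ : Fin (b + 1) → MvPolynomial (Fin (n + 1) ⊕ Fin (b + 1)) K)
    (hΦ : ∀ j, ∃ D, 0 < D ∧ IsWeightedHomogeneous (wt n w) (Φ j) D)
    (hfin : ∀ z : Fin (b + 1) → C, (∀ j, aeval (Sum.elim 0 z) (Φ j) = 0) → z = 0)
    (he : 0 < e) (f : Fin (N + 1) → MvPolynomial (Fin (n + 1) ⊕ Fin (b + 1)) K)
    (hf : ∀ i, IsWeightedHomogeneous (wt n w) (f i) e)
    (hf0 : ∀ x ∈ X, ∀ z : Fin (b + 1) → C, (∀ j, aeval (Sum.elim x z) (Φ j) = 0) →
      (∀ i, aeval (Sum.elim x z) (f i) = 0) → x = 0 ∧ z = 0) :
    Q1 T K E (weightedImage X Φ f) d :=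
  q1_cover T B hX w hw Φ hΦ hfin he f hf hf0

/-- Cyclic coverings `z ^ r = s (x)` of `X`. -/
theorem cyclic (T : Tilting p C F) (B : BaseField T K E) {n d r m N e : ℕ}
    {X : Set (Fin (n + 1) → C)} (hX : Q1 T K E X d) (hr : 0 < r) (hm : 0 < m)
    (s : MvPolynomial (Fin (n + 1)) K) (hs : s.IsHomogeneous (r * m))
    (he : 0 < e) (f : Fin (N + 1) → MvPolynomial (Fin (n + 1) ⊕ Fin 1) K)
    (hf : ∀ i, IsWeightedHomogeneous (wt n fun _ : Fin 1 => m) (f i) e)
    (hf0 : ∀ x ∈ X, ∀ z : C, z ^ r = aeval x s →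
      (∀ i, aeval (Sum.elim x fun _ => z) (f i) = 0) → x = 0 ∧ z = 0) :
    Q1 T K E {y | ∃ x ∈ X, ∃ z : C, z ^ r = aeval x s ∧
      ∀ i, y i = aeval (Sum.elim x fun _ => z) (f i)} d :=
  q1_cyclic T B hX hr hm s hs he f hf hf0

end corollaries

end Pool.Agent.Results.MP_db3ab1_ag.JoinsAndCoverings
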