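import Pool.Agent.N734.QP.Pull

/-!
# Q1 for inverse images and for proper intersections of several varieties

The setting and the notions `Tilting`, `BaseField`, `IsConeOver`, `DimGE`, `DimLEOver`, `Approximable` are
those of `AllPerfectoidFields` (starting point): `K` is a perfectoid field of characteristic `0`,
`E = K♭` its tilt, `C` the completion of an algebraic closure of `K`, and `F = C♭`. Closed subsets of
projective space are given by their cones, and `Approximable T K E X d` is Q1 over `K` for a closed
subset `X` of dimension `d` defined over `K`: for all homogeneous polynomials `P_k` over `K` which vanish on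
`X` and all `ε > 0` there is a closed subset `Y` of dimension `d` defined over `E = K♭` with
`|P_k(y♯)| ≤ ε ‖y‖ ^ (deg P_k)` for all `k` and all points `y` of `Y`.

For `i = 1, ..., k` let `X_i` be a closed subset of dimension `δ_i` of `ℙ^(n_i)` defined over `K` for which Q1
holds, or which is in the following class, for which Q1 is known (`ToricSectionsAndStability`).
`IsToricUnion K X d`: `X` has dimension at most `d` and is the union of finitely many (at least one)
`f_i(Z_i ∩ V(h_i))`, where `Z_i` is a projective toric variety (not necessarily normal) of dimension at
least `d + c_i`, `h_i` consists of `c_i` forms over `K`, and `f_i` is given by forms over `K` of the same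
positive degree without common zeros on `Z_i ∩ V(h_i)`.

Let `f_i` consist of `n_i + 1` forms over `K` of the same degree `e_i > 0` on `ℙ^m`; common zeros are
allowed. `pullSet X f` is (the cone over) the closed set `W` of the points `z` of `ℙ^m` such that for all `i`
either `f_i(z)` is in `X_i` or all components of `f_i` vanish at `z`. Let `g` consist of `q + 1` forms
over `K` of the same positive degree on `ℙ^m` without common zeros on `W`; `formImage W g` is (the cone
over) the closed subset `g(W)` of `ℙ^q`.

Theorem. Suppose that `d ≤ m - ∑ (n_i - δ_i)` and that the dimension of `g(W)` is at most `d`. Then `g(W)`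
is closed, defined over `K`, of dimension `d`, and Q1 holds for `g(W)`, and more generally for every
closed subset of dimension `d` of `ℙ^q` which contains `g(W)`.

Special cases (the first two with `g = (z_0, ..., z_m)`).

* Proper intersections (`f_i = (z_0, ..., z_m)`): if `X_1, ..., X_k` in `ℙ^m` are known to satisfy Q1 and
  intersect properly, that is, in dimension `m - ∑ (m - δ_i)`, then Q1 holds for `X_1 ∩ ... ∩ X_k`.
* Inverse images (`k = 1`): if Q1 holds for `X` in `ℙ^n` and `f` is a rational map from `ℙ^m` to `ℙ^n` such
  that the inverse image of `X` together with the indeterminacy locus of `f` has the expected codimension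
  (for instance, if `f` is a finite morphism from `ℙ^n` to `ℙ^n`, or if `f` is a linear projection, where
  this is a cone over `X`), then Q1 holds for this inverse image.
* Proper intersections of inverse images `f_1^(-1)(X_1) ∩ ... ∩ f_k^(-1)(X_k)` under finite morphisms `f_i` of
  different degrees from `ℙ^m` to `ℙ^m`, and their images and linear projections.

The condition on the dimension concerns only `g(W)` and not the partial intersections, so that the
case of several `X_i` does not follow by induction from the case `k = 1`. The forms `f_i` may have
different degrees.

Other results: `ToricSectionsAndStability` (starting point) proves the stability of Q1 under the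
passage to complete intersections in `X`, to images and to unions, `Products` under products, and
`KummerCoverings` under the inverse images under `(x_0 : ... : x_n) ↦ (x_0 ^ r : ... : x_n ^ r)`. The hand-in
`JoinsAndCoverings` of the same team contains the joins and, as a special case, the intersections of
two varieties (`k = 2` with linear `f_1`, `f_2`). The stability under inverse images of the expected
dimension in general and the intersections of several varieties and inverse images at once are new.

Proof. The basic operations were proved in the starting helper files (`Pool.Agent.X271.TQ`; they were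
not handed in before): joins in complementary subspaces (`Good.join`), inverse images under
`s ↦ s ^ e` (`Good.powPull`), sections by forms (`Good.section`), images under linear projections
(`Good.powImage`) and under forms (`Good.image`). Here consider the join of a point `b`, of the inverse
images of the `X_i` under `s ↦ s ^ (e_i)`, and of `ℙ^m` in complementary subspaces (`good_joins`). Its
dimension is `∑ (δ_i + 1) + m + 1`. In it, the `1 + ∑ (n_i + 1)` equations `b = 0` and
`s_(i,j) ^ (e_i) = f_(i,j)(z)` define a closed subset, which is mapped onto `W` by the projection to
`ℙ^m`; all `s_(i,j)` vanish if `z = 0`, so this projection is defined everywhere (`good_pull`). If `g(W)` has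
dimension at most `d` then so has `W`, by the inverse images of `d + 1` forms (`dimLE_pull`).
-/

set_option autoImplicit false

namespace Pool.Agent.Results.MP_db3ab1_ag.PullbacksAndProperIntersections

open MvPolynomial Pool.Agent.Y129.TA Pool.Agent.N734.QP
open Pool.Agent.Y129.TB (BaseField IsConeOver DimLEOver Approximable)
open Pool.Agent.R388.TP (IsToricUnion)

/-- Q1 is stable under inverse images of the expected dimension, proper intersections of several such
sets, and images of these. -/
theorem result {p : ℕ} [Fact p.Prime] {C F K E : Type} [Field C] [Field F] [CharP F p] [Field K]
    [Field E] [Algebra K C] [Algebra E F] [IsAlgClosed C] [IsAlgClosed F] (T : Tilting p C F)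
    (B : BaseField T K E) {k m q d e' : ℕ} {n δ e : Fin k → ℕ}
    (X : ∀ i, Set (Fin (n i + 1) → C))
    (hX : ∀ i, IsToricUnion K (X i) (δ i) ∨
      IsConeOver K (X i) ∧ DimGE (X i) (δ i) ∧ DimLEOver K (X i) (δ i) ∧
        Approximable T.toTiltPair K E (X i) (δ i))
    (f : ∀ i, Fin (n i + 1) → MvPolynomial (Fin (m + 1)) K) (he : ∀ i, 0 < e i)
    (hf : ∀ i j, (f i j).IsHomogeneous (e i))
    (g : Fin (q + 1) → MvPolynomial (Fin (m + 1)) K) (he' : 0 < e')
    (hg : ∀ l, (g l).IsHomogeneous e')
    (h0 : ∀ z ∈ pullSet X f, (∀ l, aeval z (g l) = 0) → z = 0)
    (hd : d + ∑ i, n i ≤ m + ∑ i, δ i)
    (hle : DimLEOver K (formImage (pullSet X f) g) d) :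
    IsConeOver K (formImage (pullSet X f) g) ∧ DimGE (formImage (pullSet X f) g) d ∧
      ∀ X' : Set (Fin (q + 1) → C), formImage (pullSet X f) g ⊆ X' →
        Approximable T.toTiltPair K E X' d :=
  let G := good_formImage T B (fun i => good_of T B (hX i)) f he hf hd g he' hg h0 hle
  ⟨G.cone, G.ge, fun _ hXX r P D hP hPX => G.app r P D hP fun k x hx => hPX k x (hXX hx)⟩

end Pool.Agent.Results.MP_db3ab1_ag.PullbacksAndProperIntersections
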